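import Pool.Agent.Y262.EG.Stm

/-!
# The frame acts on functions on the unit tangent bundle; test functions
-/

set_option autoImplicit false

open Set Filter Topology MeasureTheory
open scoped ContDiff

noncomputable section

namespace Pool.Agent.Y168.EG

open Pool.Agent.Y262.EG

theorem isOpen_YO {Ω : Set ℂ} (h : IsOpen Ω) : IsOpen (YO Ω) := h.preimage continuous_fst

theorem dWP : StFrame → StEt → StDWP := by
  intro hFr hEt M P _ _ _ _ Ω φ pr q hU
  obtain ⟨-, -, e3⟩ := hEt M P Ω φ pr q hU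
  obtain ⟨hX, hH, -, -⟩ := hFr Ω φ hU.opn hU.smooth
  have hYO := isOpen_YO hU.opn
  have hl : ∀ x, lft Ω q x ∈ YO Ω ∧ q (lft Ω q x) = x := by
    intro x
    have hx : x ∈ q '' YO Ω := by
      rw [hU.surjq]
      exact mem_univ x
    have h : ∃ p, p ∈ YO Ω ∧ q p = x := hx
    rw [lft, dif_pos h]
    exact h.choose_spec
  have hc : ∀ F : P → ℝ, ContinuousOn (fun p => F (q p)) (YO Ω) → Continuous F := by
    intro F hF
    refine continuous_def.2 fun V hV => ?_
    have h1 := hU.opnq _ (hF.isOpen_inter_preimage hYO hV) inter_subset_left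
    have h2 : F ⁻¹' V = q '' (YO Ω ∩ (fun p => F (q p)) ⁻¹' V) := by
      ext x
      constructor
      · intro hx
        refine ⟨lft Ω q x, ⟨(hl x).1, ?_⟩, (hl x).2⟩
        show F (q (lft Ω q x)) ∈ V
        rw [(hl x).2]
        exact hx
      · rintro ⟨p, ⟨-, hp⟩, rfl⟩
        exact hp
    rw [h2]
    exact h1
  refine ⟨hl, hc, fun F hF => ⟨hc F hF.continuousOn, fun W hW => ?_⟩⟩
  have hWc : ContinuousOn W (YO Ω) := by
    rcases hW with rfl | rfl | rfl
    · exact hX.continuousOn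
    · exact hH.continuousOn
    · exact continuousOn_const
  have hdW : ∀ p ∈ YO Ω, dW Ω q W F (q p) = fderiv ℝ (fun p => F (q p)) p (W p) := by
    intro p hp
    obtain ⟨hl1, hl2⟩ := hl (q p)
    obtain ⟨U, A, hUo, hpU, hUY, hA, hAp, hAU⟩ := e3 p hp _ hl1 hl2.symm
    have hAd : DifferentiableAt ℝ A p :=
      ((hA.contDiffAt (hUo.mem_nhds hpU)).differentiableAt (by norm_num))
    have hGd : DifferentiableAt ℝ (fun p => F (q p)) (A p) := by
      rw [hAp]
      exact ((hF.contDiffAt (hYO.mem_nhds hl1)).differentiableAt (by norm_num))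
    have hev : (fun p => F (q p)) =ᶠ[𝓝 p] fun y => F (q (A y)) := by
      filter_upwards [hUo.mem_nhds hpU] with y hy
      rw [(hAU y hy).2.1]
    have hAW : fderiv ℝ A p (W p) = W (A p) := by
      obtain ⟨-, -, -, a1, a2, a3⟩ := hAU p hpU
      rcases hW with rfl | rfl | rfl
      · exact a1
      · exact a2
      · exact a3
    have h3 : fderiv ℝ (fun y => F (q (A y))) p =
        (fderiv ℝ (fun p => F (q p)) (A p)).comp (fderiv ℝ A p) := fderiv_comp p hGd hAd
    rw [dW, hev.fderiv_eq, h3, ContinuousLinearMap.comp_apply, hAW, hAp]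
  refine ⟨hdW, hc _ ?_⟩
  have h4 : ContinuousOn (fun p => fderiv ℝ (fun p => F (q p)) p (W p)) (YO Ω) :=
    (hF.continuousOn_fderiv_of_isOpen hYO le_rfl).clm_apply hWc
  exact h4.congr hdW

theorem push : StEt → StPush := by
  intro hEt M P _ _ _ _ Ω φ pr q hU p hp
  classical
  obtain ⟨e1, -, e3⟩ := hEt M P Ω φ pr q hU
  have hYO := isOpen_YO hU.opn
  obtain ⟨r, hr, hb, hinj⟩ := e1 p hp
  refine ⟨r, hr, hb, hinj, fun u hu hcs hsup => ?_⟩
  obtain ⟨F, hF⟩ : ∃ F : P → ℝ, F = fun x =>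
    if h : ∃ y, y ∈ Metric.ball p r ∧ q y = x then u h.choose else 0 := ⟨_, rfl⟩
  have hFq : ∀ y ∈ Metric.ball p r, F (q y) = u y := by
    intro y hy
    have h : ∃ y', y' ∈ Metric.ball p r ∧ q y' = q y := ⟨y, hy, rfl⟩
    rw [hF]
    beta_reduce
    rw [dif_pos h]
    rw [hinj h.choose_spec.1 hy h.choose_spec.2]
  have hF0 : ∀ x, x ∉ q '' tsupport u → F x = 0 := by
    intro x hx
    rw [hF]
    beta_reduce
    by_cases h : ∃ y, y ∈ Metric.ball p r ∧ q y = x
    · rw [dif_pos h]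
      refine image_eq_zero_of_notMem_tsupport fun hK => hx ⟨_, hK, h.choose_spec.2⟩
    · rw [dif_neg h]
  refine ⟨F, ?_, hFq, hF0⟩
  have hKc : IsClosed (q '' tsupport u) :=
    (hcs.isCompact.image_of_continuousOn (hU.contq.mono (hsup.trans hb))).isClosed
  intro y' hy'
  refine ContDiffAt.contDiffWithinAt ?_
  by_cases hy : q y' ∈ q '' tsupport u
  · obtain ⟨y, hyK, hyq⟩ := hy
    have hyb := hsup hyK
    obtain ⟨U, A, hUo, hpU, hUY, hA, hAp, hAU⟩ := e3 y' hy' y (hb hyb) hyq.symm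
    have hAc : ContDiffAt ℝ ∞ A y' := hA.contDiffAt (hUo.mem_nhds hpU)
    have hev : (fun p => F (q p)) =ᶠ[𝓝 y'] fun v => u (A v) := by
      have h1 : ∀ᶠ v in 𝓝 y', A v ∈ Metric.ball p r := by
        refine hAc.continuousAt.eventually_mem ?_
        rw [hAp]
        exact Metric.isOpen_ball.mem_nhds hyb
      filter_upwards [h1, hUo.mem_nhds hpU] with v hv hvU
      rw [← (hAU v hvU).2.1, hFq _ hv]
    refine ContDiffAt.congr_of_eventuallyEq ?_ hev
    exact hu.contDiffAt.comp y' (hAc.of_le (by norm_num))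
  · have hev : (fun p => F (q p)) =ᶠ[𝓝 y'] fun _ => (0 : ℝ) := by
      have h1 : ∀ᶠ v in 𝓝 y', q v ∈ (q '' tsupport u)ᶜ :=
        (hU.contq.continuousAt (hYO.mem_nhds hy')).eventually_mem (hKc.isOpen_compl.mem_nhds hy)
      filter_upwards [h1] with v hv
      exact hF0 _ hv
    exact contDiffAt_const.congr_of_eventuallyEq hev

end Pool.Agent.Y168.EG
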